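import Pool.Agent.Q40.FC.LU2

/-!
MP_3029eb_ag: local uniformization for the local rings of finite quotients `Y = X / ~` of smooth
families `X → S` over a variety `S` of any dimension over a perfect field of characteristic `p`, if
the equivalence relation is the base change of a scheme over `S`; for instance, for the quotients of
`X` by arbitrary finite subgroup schemes `N` of the generic fibre of a group scheme `G` over `S`
which acts freely on `X` (the closure of `N` in `G` need not be flat over `S`, it may be
infinitesimal, and `Y` may be singular along any closed subset of `S`). Every valuation of the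
function field of `Y` is uniformized whose restriction to the function field of `S` is uniformizable:
all valuations if `dim S ≤ 3`, and in any dimension, for example, the Abhyankar valuations.

The proof: the determinants of the elements of the coordinate ring of `X` with respect to a basis of
the function field of `X` over the function field of `Y` generate an ideal which is extended from
`S` (for group schemes: a lemma of Artin for Hopf algebras); this ideal becomes principal in a
smooth model `A` of the base along the valuation; then `A ⊗ X` is locally free over the quotient,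
and smoothness descends (Kunz).

helper40; built on the library of the starting files (W558, W418, H920R2, H519R3).
-/

set_option autoImplicit false

open TensorProduct Pool.Agent.W558

namespace Pool.Agent.Results.MP_3029eb_ag.FiniteQuotientsLU

/-- Local uniformization of `R`: for every valuation of the field of fractions `K` of `R`, with
valuation ring `V`, which is centred on `R`, there is a finitely generated `R`-subalgebra `A` of `K`
with `A ⊆ V` whose localization at the centre of the valuation is regular. -/
def AdmitsLU (R : Type) [CommRing R] [IsLocalRing R] : Prop :=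
  ∀ (K : Type) [Field K] [Algebra R K] [IsFractionRing R K] (V : ValuationSubring K),
    (∀ r : R, algebraMap R K r ∈ V) →
    (∀ r : R, r ∈ IsLocalRing.maximalIdeal R ↔ V.valuation (algebraMap R K r) < 1) →
    ∃ A : Subalgebra R K, A.FG ∧ (∀ a : A, (a : K) ∈ V) ∧
      ∃ Q : Ideal A, ∃ (_ : Q.IsPrime), (∀ a : A, a ∈ Q ↔ V.valuation (a : K) < 1) ∧
        IsRegularLocalRing (Localization.AtPrime Q)

/-- The valuation ring `V` of the field `K` is uniformizable over `k`: every finite subset `Z` of `V`
is contained in a smooth `k`-algebra `A` which is contained in `V`. (This is local uniformization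
along `V` on the affine varieties with the function field `K`.) -/
def IsUniformizable (k : Type) [Field k] {K : Type} [Field K] [Algebra k K]
    (V : ValuationSubring K) : Prop :=
  ∀ Z : Finset K, (∀ z ∈ Z, z ∈ V) →
    ∃ A : Subalgebra k K, Algebra.Smooth k A ∧ (∀ z ∈ Z, z ∈ A) ∧ ∀ a ∈ A, a ∈ V

section relation

variable {k E L : Type} [Field k] [Field E] [Field L] [Algebra k E] [Algebra k L] [Algebra E L]
  [IsScalarTower k E L]

/-- For a subalgebra `B` of `L` and a set `A` of elements of an `L`-algebra `T`: the `B`-submodule of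
`T` generated by `A`. -/
def gen (B : Subalgebra k L) {T : Type} [CommRing T] [Algebra L T] (A : Set T) : Submodule B T :=
  Submodule.span B A

/-- The coordinate ring `L ⊗[F] L` of the generic fibre of the equivalence relation of a quotient
with the function field `F`. -/
def Square (F : IntermediateField E L) : Type := L ⊗[F] L

noncomputable instance (F : IntermediateField E L) : CommRing (Square F) :=
  (Algebra.TensorProduct.instCommRing : CommRing (L ⊗[F] L))

noncomputable instance (F : IntermediateField E L) : Algebra L (Square F) :=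
  (Algebra.TensorProduct.leftAlgebra : Algebra L (L ⊗[F] L))

noncomputable instance (F : IntermediateField E L) : Module E (Square F) :=
  (TensorProduct.leftModule : Module E (L ⊗[F] L))

/-- The element `1 ⊗ x` of `L ⊗[F] L`. -/
noncomputable def Square.right (F : IntermediateField E L) (x : L) : Square F := (1 : L) ⊗ₜ[F] x

/-- The equivalence relation of the finite quotient `Y` of `X`, with the function field `F`, is the
base change of a scheme over `S`, on the affine chart `Spec B` of `X`: the `B`-submodule of
`L ⊗[F] L` generated by the elements `1 ⊗ b`, `b ∈ B` (the coordinate ring of the closure in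
`Spec B ×_S Spec B` of the generic fibre of the relation) is generated by a set `V` contained in a
linear subspace over the function field `E` of `S` which is spanned by `[L : F]` elements. -/
def IsConstantRelation (F : IntermediateField E L) (B : Subalgebra k L) : Prop :=
  ∃ (V : Set (Square F)) (w : Fin (Module.finrank F L) → Square F),
    (∀ v ∈ V, v ∈ Submodule.span E (Set.range w)) ∧ gen B (Square.right F '' B) = gen B V

end relation

section action

/-- The algebra `L ⊗[E] Q`, for a group scheme `Spec Q` over the field `E`. -/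
def Graph (E L Q : Type) [Field E] [Field L] [Algebra E L] [CommRing Q] [HopfAlgebra E Q] : Type :=
  L ⊗[E] Q

variable {k E L P Q : Type} [Field k] [Field E] [Field L] [Algebra k E] [Algebra k L]
  [Algebra E L] [IsScalarTower k E L] [CommRing P] [HopfAlgebra E P] [CommRing Q] [HopfAlgebra E Q]

noncomputable instance : CommRing (Graph E L Q) :=
  (Algebra.TensorProduct.instCommRing : CommRing (L ⊗[E] Q))

noncomputable instance : Algebra L (Graph E L Q) :=
  (Algebra.TensorProduct.leftAlgebra : Algebra L (L ⊗[E] Q))

noncomputable instance : Algebra E (Graph E L Q) :=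
  (Algebra.TensorProduct.leftAlgebra : Algebra E (L ⊗[E] Q))

/-- The element `x ⊗ q`. -/
noncomputable def Graph.tmul (x : L) (q : Q) : Graph E L Q := x ⊗ₜ[E] q

/-- The map `id ⊗ φ : L ⊗ Q → L`, for a linear functional `φ` on `Q`. -/
noncomputable def Graph.eval (φ : Q →ₗ[E] E) : Graph E L Q →ₗ[E] L :=
  ((TensorProduct.rid E L).toLinearMap ∘ₗ TensorProduct.map LinearMap.id φ : L ⊗[E] Q →ₗ[E] L)

/-- The homomorphism `id ⊗ q : L ⊗ P → L ⊗ Q`, for the subgroup scheme `Spec Q` of `Spec P` which is
given by the homomorphism `q` of Hopf algebras. -/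
noncomputable def Graph.restrict (q : P →ₐc[E] Q) : Graph E L P →ₐ[E] Graph E L Q :=
  (Algebra.TensorProduct.map (AlgHom.id E L) (q : P →ₐ[E] Q) : L ⊗[E] P →ₐ[E] L ⊗[E] Q)

/-- The functional `φ ⊗ ψ` on `Q ⊗ Q`. -/
noncomputable def pair (φ ψ : Q →ₗ[E] E) : Q ⊗[E] Q →ₗ[E] E :=
  LinearMap.mul' E E ∘ₗ TensorProduct.map φ ψ

/-- The product of linear functionals on `Q` (the convolution): `(φ * ψ)(q) = φ(q_1) ψ(q_2)`. -/
noncomputable def conv (φ ψ : Q →ₗ[E] E) : Q →ₗ[E] E := pair φ ψ ∘ₗ Coalgebra.comul

/-- The operator `(id ⊗ φ) ∘ h` on `L`. -/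
noncomputable def operator (h : L → Graph E L Q) (φ : Q →ₗ[E] E) (x : L) : L := Graph.eval φ (h x)

/-- An action of the group scheme `Spec Q` over `E` on `Spec L`: a homomorphism `hom : L → L ⊗ Q` of
`E`-algebras, such that the operators `(id ⊗ φ) ∘ hom` on `L` define an action of the dual algebra
of `Q`. -/
structure Action (E L Q : Type) [Field E] [Field L] [Algebra E L] [CommRing Q]
    [HopfAlgebra E Q] where
  hom : L →ₐ[E] Graph E L Q
  assoc : ∀ (φ ψ : Q →ₗ[E] E) (x : L),
    operator hom φ (operator hom ψ x) = operator hom (conv φ ψ) x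
  unit : ∀ x : L, operator hom Coalgebra.counit x = x

/-- `F` is the field of invariants of the action. -/
def Action.IsInvariantField (ρ : Action E L Q) (F : IntermediateField E L) : Prop :=
  ∀ x, x ∈ F ↔ ρ.hom x = Graph.tmul x 1

/-- `F` is the field of invariants of the closed subgroup scheme `Spec Q` of `Spec P`, which is
given by the surjective homomorphism `q` of Hopf algebras. -/
def Action.IsInvariantFieldOf (τ : Action E L P) (q : P →ₐc[E] Q) (F : IntermediateField E L) :
    Prop :=
  Function.Surjective q ∧ ∀ x, x ∈ F ↔ Graph.restrict q (τ.hom x) = Graph.tmul x 1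

/-- The action of the group scheme `N = Spec Q` over `E` on the chart `Spec B` is free, and the
closure in `Spec B ×_S Spec B` of its relation is the base change of a scheme over `S`, with the
coordinate ring generated by the set `V` of functions on `N`. -/
def Action.IsFree (ρ : Action E L Q) (B : Subalgebra k L) (V : Set Q) : Prop :=
  Submodule.span E V = ⊤ ∧ gen B (ρ.hom '' B) = gen B (Graph.tmul (1 : L) '' V)

end action

section quotients

variable {k E L : Type} [Field k] [Field E] [Field L] [Algebra k E] [Algebra k L]
  [Algebra E L] [IsScalarTower k E L] (B : Subalgebra k L) (F : IntermediateField E L)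

/-- `K` is the field of fractions of `A`. -/
def IsFieldOfFractions {K : Type} [Field K] [Algebra k K] (A : Subalgebra k K) : Prop :=
  ∀ x : K, ∃ a ∈ A, ∃ b ∈ A, b ≠ 0 ∧ x = a / b

/-- The homomorphism `R → B` of the coordinate rings of `X → S`. -/
def baseMap (R : Subalgebra k E) (B : Subalgebra k L) (h : ∀ x ∈ R, algebraMap E L x ∈ B) :
    R →+* B :=
  ((algebraMap E L).comp R.val.toRingHom).codRestrict B (fun x => h x.1 x.2)

/-- The coordinate ring `B ∩ F` of the quotient `Y` of `X = Spec B` with the function field `F`. -/
def quotient : Subalgebra k L := B ⊓ F.toSubalgebra.restrictScalars k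

/-- The quotient of `X` with the function field `F` has an equivalence relation which is the base
change of a scheme over `S`. -/
def IsConstantQuotient : Prop := FiniteDimensional F L ∧ IsConstantRelation F B

/-- `F` is the field of invariants of a finite group scheme `Spec Q` over `E` which acts freely on
the generic fibre of `X`, such that the closure of its relation in `X ×_S X` is the base change of
a scheme over `S`. -/
def IsGroupQuotient : Prop :=
  ∃ (Q : Type) (_ : CommRing Q) (_ : HopfAlgebra E Q) (ρ : Action E L Q), Module.Finite E Q ∧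
    ρ.IsInvariantField F ∧ ∃ V, ρ.IsFree B V

/-- `F` is the field of invariants of a finite subgroup scheme `Spec Q` of the generic fibre `Spec P`
of a group scheme `G` over `S` which acts freely on `X`; here `V ⊆ P` is the coordinate ring of
`G`. -/
def IsSubgroupQuotient : Prop :=
  ∃ (P Q : Type) (_ : CommRing P) (_ : HopfAlgebra E P) (_ : CommRing Q) (_ : HopfAlgebra E Q)
    (τ : Action E L P) (q : P →ₐc[E] Q) (V : Set P), Module.Finite E Q ∧
    τ.IsInvariantFieldOf q F ∧ τ.IsFree B V

end quotients

/-- Let `k` be a perfect field of characteristic `p`, and `S = Spec R` an affine variety over `k` of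
any dimension, with the function field `E`. Let `X = Spec B` be integral and smooth over `S`, of any
relative dimension, with the function field `L`, and let `Y` be a finite quotient of `X` over `S`,
with the function field `F` and the coordinate ring `B ∩ F`, such that

(1) the equivalence relation of `Y` is the base change of a scheme over `S`, or

(2) `Y` is the quotient of `X` by a finite group scheme over `E` which acts freely on the generic
fibre of `X`, such that the closure of its relation in `X ×_S X` is the base change of a scheme over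
`S`, or

(3) `Y` is the quotient of `X` by any finite subgroup scheme of the generic fibre of a group scheme
`G` over `S` which acts freely on `X`.

Then (a) for every valuation ring `W` of `L` which contains `B ∩ F`, such that the valuation ring
`W ∩ E` of `E` is uniformizable, there is a smooth `k`-algebra `D` with `B ∩ F ⊆ D ⊆ W ∩ F`: the
valuation ring `W ∩ F` is uniformized on `Y`. (b) If all valuation rings of `E` which contain `R` are
uniformizable (this is known if the dimension of `S` is at most `3`; it is proved here if `E` is the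
function field of a smooth projective surface, or if `E` has log smooth projective models), then
the local ring of `Y` at an arbitrary point admits local uniformization. -/
theorem result (p : ℕ) [Fact p.Prime] (k E L : Type) [Field k] [PerfectField k] [CharP k p]
    [Field E] [Field L] [Algebra k E] [Algebra k L] [Algebra E L] [IsScalarTower k E L]
    (R : Subalgebra k E) (hR : R.FG) (hRE : IsFieldOfFractions R)
    (B : Subalgebra k L) (hBL : IsFieldOfFractions B) (hRB : ∀ x ∈ R, algebraMap E L x ∈ B)
    (hsm : (baseMap R B hRB).Smooth) (F : IntermediateField E L)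
    (hint : ∀ b ∈ B, IsIntegral (quotient B F) b)
    (hq : IsConstantQuotient B F ∨ IsGroupQuotient B F ∨ IsSubgroupQuotient B F) :
    (∀ W : ValuationSubring L, (∀ x ∈ quotient B F, x ∈ W) →
      IsUniformizable k (W.comap (algebraMap E L)) →
      ∃ D : Subalgebra k L, Algebra.Smooth k D ∧ quotient B F ≤ D ∧ ∀ x ∈ D, x ∈ W ∧ x ∈ F) ∧
    ((∀ V : ValuationSubring E, (∀ x ∈ R, x ∈ V) → IsUniformizable k V) ∨
        (Algebra.trdeg k E = 2 ∧ HasModel k E) ∨ HasLogModels k E →
      ∀ (P : Ideal (quotient B F)) [P.IsPrime] (A : Type) [CommRing A] [IsLocalRing A]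
        [Algebra (quotient B F) A] [IsLocalization.AtPrime A P], AdmitsLU A) := by
  classical
  have hRE' : ∀ x : E, ∃ a ∈ R, ∃ b ∈ R, b ≠ 0 ∧ x = a * b⁻¹ := fun x => by
    obtain ⟨a, ha, b, hb, hb0, h⟩ := hRE x
    exact ⟨a, ha, b, hb, hb0, by rw [h, div_eq_mul_inv]⟩
  have hBL' : ∀ x : L, ∃ a ∈ B, ∃ b ∈ B, b ≠ 0 ∧ x = a * b⁻¹ := fun x => by
    obtain ⟨a, ha, b, hb, hb0, h⟩ := hBL x
    exact ⟨a, ha, b, hb, hb0, by rw [h, div_eq_mul_inv]⟩
  have hft : Algebra.FiniteType k B := by
    let _ : Algebra R B := (baseMap R B hRB).toAlgebra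
    have h1 : Algebra.Smooth R B := hsm
    have h2 : Algebra.FiniteType k R := (Subalgebra.fg_iff_finiteType _).1 hR
    have h3 : IsScalarTower k R B := IsScalarTower.of_algebraMap_eq fun x => by
      apply Subtype.ext
      change algebraMap k L x = algebraMap E L (algebraMap k E x)
      exact IsScalarTower.algebraMap_apply k E L x
    exact Algebra.FiniteType.trans (S := R) h2 inferInstance
  -- the frames
  have hmain : ∃ (ι : Type) (_ : Fintype ι) (_ : DecidableEq ι) (e : Module.Basis ι F L)
      (lam : L) (δ : (ι → B) → B) (I : Ideal R), lam ≠ 0 ∧ I ≠ ⊥ ∧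
      (∀ c : ι → B, (e.det (fun i => (c i : L)) : L) = lam * δ c) ∧
      Ideal.span (Set.range δ) = I.map (baseMap R B hRB) := by
    have h2 : ∀ (Q : Type) [CommRing Q] [HopfAlgebra E Q] [Module.Finite E Q]
        (ρ : L →ₐ[E] L ⊗[E] Q), Pool.Agent.Q40.FC.IsCoaction ρ →
        (∀ x, x ∈ F ↔ ρ x = x ⊗ₜ 1) → Pool.Agent.Q40.FC.IsConst ρ B →
        ∃ (ι : Type) (_ : Fintype ι) (_ : DecidableEq ι) (e : Module.Basis ι F L)
        (lam : L) (δ : (ι → B) → B) (I : Ideal R), lam ≠ 0 ∧ I ≠ ⊥ ∧
        (∀ c : ι → B, (e.det (fun i => (c i : L)) : L) = lam * δ c) ∧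
        Ideal.span (Set.range δ) = I.map (baseMap R B hRB) := by
      intro Q _ _ _ ρ hρ hF1 hV
      have hFF : F = Pool.Agent.Q40.FC.coinv ρ := by
        ext x
        exact hF1 x
      subst hFF
      obtain ⟨e, eT, w, heT⟩ := Pool.Agent.Q40.FC.exists_frame ρ hρ
        (Pool.Agent.Q40.FC.span_range_of_const hV)
      obtain ⟨V, hV1, hV2⟩ := hV
      refine ⟨_, inferInstance, inferInstance, e, Pool.Agent.Q40.FC.disc_of_frame _ e
        (ρ : L →+* L ⊗[E] Q) (fun x hx => hx) eT heT R hRE' B hBL' hint _ (fun x => rfl)
        ((fun v => (1 : L) ⊗ₜ[E] v) '' V) hV2 (fun i => (1 : L) ⊗ₜ[E] w i) ?_⟩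
      rintro _ ⟨v, -, rfl⟩
      change (1 : L) ⊗ₜ[E] v ∈ _
      rw [← w.sum_repr v, TensorProduct.tmul_sum]
      refine Submodule.sum_mem _ fun i _ => ?_
      rw [TensorProduct.tmul_smul]
      exact Submodule.smul_mem _ _ (Submodule.subset_span ⟨i, rfl⟩)
    rcases hq with ⟨hfd, V, w, hw, hV⟩ | ⟨Q, _, _, ρ, hfin, hF1, hV⟩ |
      ⟨P, Q, _, _, _, _, τ, q, V, hfin, ⟨hq, hF1⟩, hV⟩
    · let e := Module.finBasis F L
      refine ⟨_, inferInstance, inferInstance, e, Pool.Agent.Q40.FC.disc_of_frame F e
        (Algebra.TensorProduct.includeRight : L →ₐ[F] L ⊗[F] L).toRingHom ?_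
        (Algebra.TensorProduct.basis L e) ?_ R hRE' B hBL' hint _ (fun x => rfl) V hV w hw⟩
      · intro x hx
        exact (Algebra.TensorProduct.includeRight : L →ₐ[F] L ⊗[F] L).commutes ⟨x, hx⟩
      · intro i
        exact Algebra.TensorProduct.basis_apply e i
    · exact h2 Q ρ.hom (Pool.Agent.Q40.FC.isCoaction_of_ops ρ.hom ρ.assoc ρ.unit) hF1 hV
    · exact h2 Q (Pool.Agent.Q40.FC.restr q τ.hom)
        (Pool.Agent.Q40.FC.isCoaction_restr q τ.hom
          (Pool.Agent.Q40.FC.isCoaction_of_ops τ.hom τ.assoc τ.unit)) hF1
        (Pool.Agent.Q40.FC.isConst_restr q τ.hom hq _ V hV.1 hV.2)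
  obtain ⟨ι, _, _, e, lam, δ, I, hlam, hI0, hδ, hI⟩ := hmain
  have hfd : FiniteDimensional F L := Module.Finite.of_basis e
  have hlu : ∀ W : ValuationSubring L, (∀ x ∈ quotient B F, x ∈ W) →
      IsUniformizable k (W.comap (algebraMap E L)) →
      ∃ D : Subalgebra k L, Algebra.Smooth k D ∧ quotient B F ≤ D ∧ ∀ x ∈ D, x ∈ W ∧ x ∈ F := by
    intro W hW hu
    obtain ⟨D, hD1, hD2, hD3, hD4⟩ := Pool.Agent.Q40.FC.lu_disc p F R hR hRE' B
      (baseMap R B hRB) (fun x => rfl) hsm hBL' hint e lam hlam δ hδ I hI0 hI W hW hu
    exact ⟨D, hD1, hD2, fun x hx => ⟨hD3 x hx, hD4 x hx⟩⟩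
  refine ⟨hlu, ?_⟩
  intro hE P _ A _ _ _ _
  have hE' : ∀ V : ValuationSubring E, (∀ x ∈ R, x ∈ V) → IsUniformizable k V := by
    rcases hE with h | ⟨h2, hE⟩ | hE
    · exact h
    · exact fun V hV => Pool.Agent.Q40.FC.unif_of_LM
        (Pool.Agent.W418.LCI.hasLM_of_surface k _ h2 hE) V (fun c => hV _ (R.algebraMap_mem c))
    · exact fun V hV => Pool.Agent.Q40.FC.unif_of_LM
        (Pool.Agent.W418.LCI.hasLM_of_models k _ hE) V (fun c => hV _ (R.algebraMap_mem c))
  refine Pool.Agent.Q40.FC.admitsLU_of_lu (quotient B F).val Subtype.val_injective ?_ P A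
  intro W hW
  have hW' : ∀ x ∈ quotient B F, x ∈ W := fun x hx => hW ⟨x, hx⟩
  obtain ⟨D, hD1, hD2, hD3⟩ := hlu W hW' (hE' _ fun x hx => hW' _ ⟨hRB x hx, F.algebraMap_mem x⟩)
  refine ⟨D, hD1, fun a => hD2 a.2, fun x hx => (hD3 x hx).1, fun x hx => ?_⟩
  obtain ⟨b, hb, c, hc, hc0, h⟩ := Pool.Agent.Q40.FC.exists_den_infM F B hBL' hint x
  have hbF : b ∈ F := by
    have h1 : b = x * c := by rw [h, inv_mul_cancel_right₀ hc0]
    rw [h1]
    exact F.mul_mem (hD3 x hx).2 hc.2
  exact ⟨⟨b, hb, hbF⟩, ⟨c, hc⟩, hc0, by rw [h, div_eq_mul_inv]; rfl⟩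

end Pool.Agent.Results.MP_3029eb_ag.FiniteQuotientsLU
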