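import Pool.Agent.Q40.RS.LUF
import Pool.Agent.Q40.RS.Aff
import Pool.Agent.W558.WD.Plane

/-!
MP_3029eb_ag: local uniformization for the local rings of the quotients of smooth families `X → S`
over a variety `S` of any dimension over a field `k` of characteristic `p` by relative foliations of
any rank whose degeneracy locus is the preimage of a closed subscheme of `S`. Every valuation of the
function field of `X` is uniformized on the quotient whose restriction to the function field of `S`
is uniformizable: all valuations if `dim S ≤ 3` (and `k` is perfect), and in any dimension, for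
example, the Abhyankar valuations. Explicitly: the quotient of `S × 𝔸 ^ s` by the vector fields
`∑ j, f i j * ∂/∂y_j`, for every matrix `f` of rank `r` of functions on `S`.

The proof: in a smooth model of the base along the valuation the ideal of the degeneracy locus is
generated by one element; then Cramer's rule gives a basis of the foliation by commuting regular
vector fields `D_i` with `D_i ^ p = 0` and `D_i c_j = δ_ij`, so that the quotient is smooth.

helper40; built on the library of the starting files (W558, W418, H920R2, H519R3).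
-/

set_option autoImplicit false

open Pool.Agent.W558

namespace Pool.Agent.Results.MP_3029eb_ag.RelativeFoliationsLU

/-- Local uniformization of `R`: for every valuation of the field of fractions `K` of `R`, with
valuation ring `V`, which is centred on `R`, there is a finitely generated `R`-subalgebra `A` of `K`
with `A ⊆ V` whose localization at the centre of the valuation is regular. -/
def AdmitsLU (R : Type) [CommRing R] [IsLocalRing R] : Prop :=
  ∀ (K : Type) [Field K] [Algebra R K] [IsFractionRing R K] (V : ValuationSubring K),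
    (∀ r : R, algebraMap R K r ∈ V) →
    (∀ r : R, r ∈ IsLocalRing.maximalIdeal R ↔ V.valuation (algebraMap R K r) < 1) →
    ∃ A : Subalgebra R K, A.FG ∧ (∀ a : A, (a : K) ∈ V) ∧
      ∃ Q : Ideal A, ∃ (_ : Q.IsPrime), (∀ a : A, a ∈ Q ↔ V.valuation (a : K) < 1) ∧
        IsRegularLocalRing (Localization.AtPrime Q)

/-- The valuation ring `V` of the field `K` is uniformizable over `k`: every finite subset `Z` of `V`
is contained in a smooth `k`-algebra `A` which is contained in `V`. (This is local uniformization
along `V` on the affine varieties with the function field `K`.) -/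
def IsUniformizable (k : Type) [Field k] {K : Type} [Field K] [Algebra k K]
    (V : ValuationSubring K) : Prop :=
  ∀ Z : Finset K, (∀ z ∈ Z, z ∈ V) →
    ∃ A : Subalgebra k K, Algebra.Smooth k A ∧ (∀ z ∈ Z, z ∈ A) ∧ ∀ a ∈ A, a ∈ V

/-- The condition on the base `S = Spec R` with the function field `E`: all valuation rings of `E`
which contain `R` are uniformizable (this is known if `k` is perfect and `dim S ≤ 3`), or `k` is
perfect and `E` is the function field of a smooth projective surface, or has log smooth projective
models. -/
def IsGoodBase (k R E : Type) [Field k] [CommRing R] [Field E] [Algebra k E] [Algebra R E] : Prop :=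
  (∀ V : ValuationSubring E, (∀ x : R, algebraMap R E x ∈ V) → IsUniformizable k V) ∨
    (PerfectField k ∧ ((Algebra.trdeg k E = 2 ∧ HasModel k E) ∨ HasLogModels k E))

section defs

variable {k B L : Type} [Field k] [CommRing B] [Algebra k B] [Field L] [Algebra k L] [Algebra B L]
  [IsScalarTower k B L] {r : ℕ}

/-- A foliation of height one: an `L`-linear subspace of the space of derivations of the field `L`
over `k` which is closed under the brackets `[X, Y] = X Y - Y X` and under the `p`-th powers. -/
structure IsFoliation (p : ℕ) (F : Submodule L (Derivation k L L)) : Prop where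
  bracket : ∀ X ∈ F, ∀ Y ∈ F, ⁅X, Y⁆ ∈ F
  power : ∀ X ∈ F, ∃ Y ∈ F, ∀ x, X^[p] x = Y x

/-- The rational vector field `D` on `X = Spec B` is a regular relative vector field of
`X → S = Spec R`: it maps `B` to `B` and vanishes on `R`. -/
structure IsRelative (R : Type) [CommRing R] [Algebra R B] (D : Derivation k L L) : Prop where
  regular : ∀ b : B, ∃ b' : B, D (algebraMap B L b) = algebraMap B L b'
  relative : ∀ a : R, D (algebraMap B L (algebraMap R B a)) = 0

/-- The degeneracy ideal of the vector fields `D_1, ..., D_r`, generated by the determinants of the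
matrices `(D_i c_j)` for `c_1, ..., c_r ∈ B`. -/
noncomputable def degeneracyIdeal (B : Type) [CommRing B] [Algebra B L]
    (D : Fin r → Derivation k L L) : Ideal B :=
  Ideal.span {b | ∃ c : Fin r → B, algebraMap B L b =
    (Matrix.of fun i j => D i (algebraMap B L (c j))).det}

/-- The coordinate ring of the quotient of `Spec B` by the foliation spanned by the vector fields:
the algebra of common constants. -/
def constants (B : Type) [CommRing B] [Algebra k B] [Algebra B L] [IsScalarTower k B L]
    (D : Fin r → Derivation k L L) : Subalgebra k B where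
  carrier := {b | ∀ i, D i (algebraMap B L b) = 0}
  mul_mem' := by
    intro x y hx hy i
    rw [map_mul, Derivation.leibniz, hx i, hy i, smul_zero, smul_zero, add_zero]
  add_mem' := by
    intro x y hx hy i
    rw [map_add, map_add, hx i, hy i, add_zero]
  algebraMap_mem' := fun c i => by
    rw [← IsScalarTower.algebraMap_apply, Derivation.map_algebraMap]

/-- The vector field `∑ j, f_j * ∂/∂y_j` on `S × 𝔸 ^ s`, where `S = Spec R` and the `f_j` are
functions on `S`. -/
noncomputable def field (k : Type) [Field k] {R : Type} [CommRing R] [Algebra k R] {s : ℕ}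
    (f : Fin s → R) : Derivation k (MvPolynomial (Fin s) R) (MvPolynomial (Fin s) R) :=
  (MvPolynomial.mkDerivation R fun j => MvPolynomial.C (f j)).restrictScalars k

/-- The algebra of common constants of the vector fields given by the rows of a matrix. -/
def constants' (k : Type) [Field k] {R : Type} [CommRing R] [Algebra k R] {s r : ℕ}
    (f : Fin r → Fin s → R) : Subalgebra k (MvPolynomial (Fin s) R) where
  carrier := {b | ∀ i, field k (f i) b = 0}
  mul_mem' := by
    intro x y hx hy i
    rw [Derivation.leibniz, hx i, hy i, smul_zero, smul_zero, add_zero]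
  add_mem' := by
    intro x y hx hy i
    rw [map_add, hx i, hy i, add_zero]
  algebraMap_mem' := fun c i => (field k (f i)).map_algebraMap c

end defs

/-- Let `k` be a field of characteristic `p`, and `S = Spec R` an affine variety over `k` of any
dimension.

(1) Let `X = Spec B` be integral and smooth over `S`, of any relative dimension, and `D_1, ..., D_r`
relative vector fields on `X` over `S` which span a foliation: their span over the function field `L`
of `X` is closed under brackets and `p`-th powers. Suppose that the degeneracy ideal of the `D_i` is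
generated by an ideal `I ≠ 0` of `R`. Let `Y` be the quotient of `X` by the foliation. Then (a) for
every valuation ring `W` of `L` which contains the coordinate ring of `Y`, such that the valuation
ring `W ∩ E` of the function field `E` of `S` is uniformizable, there is a smooth `k`-algebra of
constants which contains the coordinate ring of `Y` and is contained in `W`; (b) if `S` is a good
base (for example, a surface), the local ring of `Y` at an arbitrary point admits local
uniformization.

(2) For every `r × s`-matrix `f` of rank `r` of functions on a good base `S` the local ring at an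
arbitrary point of the quotient of `S × 𝔸 ^ s`, with the coordinates `y_1, ..., y_s` of `𝔸 ^ s`, by
the vector fields `∑ j, f i j * ∂/∂y_j` admits local uniformization.

(3) If `k` is perfect, the plane is a good base. -/
theorem result (p : ℕ) [Fact p.Prime] (k : Type) [Field k] [CharP k p] :
    (∀ (R B E L : Type) [CommRing R] [IsDomain R] [Algebra k R] [Algebra.FiniteType k R]
      [CommRing B] [IsDomain B] [Algebra k B] [Algebra R B] [IsScalarTower k R B]
      [Algebra.Smooth R B] [Field E] [Algebra k E] [Algebra R E] [IsScalarTower k R E]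
      [IsFractionRing R E] [Field L] [Algebra k L] [Algebra B L] [IsScalarTower k B L]
      [IsFractionRing B L] [Algebra R L] [IsScalarTower R B L] [Algebra E L]
      [IsScalarTower R E L] [IsScalarTower k E L] (r : ℕ) (D : Fin r → Derivation k L L),
      (∀ i, IsRelative (B := B) R (D i)) → IsFoliation p (Submodule.span L (Set.range D)) →
      ∀ I : Ideal R, I ≠ ⊥ → degeneracyIdeal B D = I.map (algebraMap R B) →
      (∀ W : ValuationSubring L, (∀ b ∈ constants B D, algebraMap B L b ∈ W) →
        IsUniformizable k (W.comap (algebraMap E L)) →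
        ∃ A : Subalgebra k L, Algebra.Smooth k A ∧ (∀ b ∈ constants B D, algebraMap B L b ∈ A) ∧
          ∀ x ∈ A, x ∈ W ∧ ∀ i, D i x = 0) ∧
      (IsGoodBase k R E → ∀ (P : Ideal (constants B D)) [P.IsPrime] (A : Type) [CommRing A]
        [IsLocalRing A] [Algebra (constants B D) A] [IsLocalization.AtPrime A P], AdmitsLU A)) ∧
    (∀ (R : Type) [CommRing R] [IsDomain R] [Algebra k R] [Algebra.FiniteType k R],
      IsGoodBase k R (FractionRing R) → ∀ (r s : ℕ) (f : Fin r → Fin s → R),
      (∃ c : Fin r → Fin s, (Matrix.of fun i j => f i (c j)).det ≠ 0) →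
      ∀ (P : Ideal (constants' k f)) [P.IsPrime] (A : Type) [CommRing A]
        [IsLocalRing A] [Algebra (constants' k f) A] [IsLocalization.AtPrime A P], AdmitsLU A) ∧
    (PerfectField k →
      IsGoodBase k (MvPolynomial (Fin 2) k) (FractionRing (MvPolynomial (Fin 2) k))) := by
  have hp : p.Prime := Fact.out
  have hpk : (p : k) = 0 := CharP.cast_eq_zero k p
  have hgood : ∀ (R E : Type) [CommRing R] [Algebra k R] [Field E] [Algebra k E] [Algebra R E]
      [IsScalarTower k R E], IsGoodBase k R E → ∀ V : ValuationSubring E,
      (∀ x : R, algebraMap R E x ∈ V) → IsUniformizable k V := by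
    intro R E _ _ _ _ _ _ h V hV
    have hkV : ∀ c : k, algebraMap k E c ∈ V := fun c => by
      rw [IsScalarTower.algebraMap_apply k R E]
      exact hV _
    rcases h with h | ⟨hk, ⟨h2, hE⟩ | hE⟩
    · exact h V hV
    · exact Pool.Agent.Q40.FC.unif_of_LM (Pool.Agent.W418.LCI.hasLM_of_surface k _ h2 hE) V hkV
    · exact Pool.Agent.Q40.FC.unif_of_LM (Pool.Agent.W418.LCI.hasLM_of_models k _ hE) V hkV
  have part1 : ∀ (R B E L : Type) [CommRing R] [IsDomain R] [Algebra k R] [Algebra.FiniteType k R]
      [CommRing B] [IsDomain B] [Algebra k B] [Algebra R B] [IsScalarTower k R B]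
      [Algebra.Smooth R B] [Field E] [Algebra k E] [Algebra R E] [IsScalarTower k R E]
      [IsFractionRing R E] [Field L] [Algebra k L] [Algebra B L] [IsScalarTower k B L]
      [IsFractionRing B L] [Algebra R L] [IsScalarTower R B L] [Algebra E L]
      [IsScalarTower R E L] [IsScalarTower k E L] (r : ℕ) (D : Fin r → Derivation k L L),
      (∀ i, IsRelative (B := B) R (D i)) → IsFoliation p (Submodule.span L (Set.range D)) →
      ∀ I : Ideal R, I ≠ ⊥ → degeneracyIdeal B D = I.map (algebraMap R B) →
      (∀ W : ValuationSubring L, (∀ b ∈ constants B D, algebraMap B L b ∈ W) →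
        IsUniformizable k (W.comap (algebraMap E L)) →
        ∃ A : Subalgebra k L, Algebra.Smooth k A ∧ (∀ b ∈ constants B D, algebraMap B L b ∈ A) ∧
          ∀ x ∈ A, x ∈ W ∧ ∀ i, D i x = 0) ∧
      (IsGoodBase k R E → ∀ (P : Ideal (constants B D)) [P.IsPrime] (A : Type) [CommRing A]
        [IsLocalRing A] [Algebra (constants B D) A] [IsLocalization.AtPrime A P], AdmitsLU A) := by
    intro R B E L _ _ _ _ _ _ _ _ _ _ _ _ _ _ _ _ _ _ _ _ _ _ _ _ _ r D hD hF I hI0 hI
    have hBL : Function.Injective (algebraMap B L) := IsFractionRing.injective B L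
    have hDR : ∀ i (a : R), D i (algebraMap R L a) = 0 := by
      intro i a
      rw [IsScalarTower.algebraMap_apply R B L]
      exact (hD i).relative a
    have hDE : ∀ i (x : E), D i (algebraMap E L x) = 0 := by
      intro i x
      obtain ⟨a, b, hb, rfl⟩ := IsFractionRing.div_surjective (A := R) x
      rw [map_div₀, ← IsScalarTower.algebraMap_apply R E L,
        ← IsScalarTower.algebraMap_apply R E L, Derivation.leibniz_div, hDR, hDR]
      simp
    have ha : ∀ W : ValuationSubring L, (∀ b ∈ constants B D, algebraMap B L b ∈ W) →
        IsUniformizable k (W.comap (algebraMap E L)) →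
        ∃ A : Subalgebra k L, Algebra.Smooth k A ∧ (∀ b ∈ constants B D, algebraMap B L b ∈ A) ∧
          ∀ x ∈ A, x ∈ W ∧ ∀ i, D i x = 0 := by
      intro W hW hu
      obtain ⟨A, hA1, hA2, hA3, hA4⟩ := Pool.Agent.Q40.RS.lu_ring (R := R) (B := B) (E := E) hp hpk
        D ⟨hF.bracket, hF.power⟩ hDE (fun i b => (hD i).regular b) I hI0 hI W hW hu
      exact ⟨A, hA1, hA2, fun x hx => ⟨hA3 x hx, Pool.Agent.Q40.RS.mem_csts.1 (hA4 x hx)⟩⟩
    refine ⟨ha, ?_⟩
    intro hE P _ A _ _ _ _
    refine Pool.Agent.Q40.FC.admitsLU_of_lu
      ((IsScalarTower.toAlgHom k B L).comp (constants B D).val)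
      (hBL.comp Subtype.val_injective) ?_ P A
    intro W hW
    obtain ⟨A', hA1, hA2, hA3⟩ := ha W (fun b hb => hW ⟨b, hb⟩) (hgood R E hE _ (by
      intro x
      change algebraMap E L (algebraMap R E x) ∈ W
      have h1 : algebraMap R B x ∈ constants B D := fun i => (hD i).relative x
      have h2 := hW ⟨_, h1⟩
      change algebraMap B L (algebraMap R B x) ∈ W at h2
      rw [← IsScalarTower.algebraMap_apply R B L] at h2
      rw [← IsScalarTower.algebraMap_apply R E L]
      exact h2))
    refine ⟨A', hA1, fun a => hA2 a.1 a.2, fun x hx => (hA3 x hx).1, fun x hx => ?_⟩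
    have hfr : ∀ x : L, ∃ a ∈ Pool.Agent.Q40.RS.img k B L, ∃ b ∈ Pool.Agent.Q40.RS.img k B L,
        b ≠ 0 ∧ x = a * b⁻¹ := fun x => by
      obtain ⟨a, b, hb, rfl⟩ := IsFractionRing.div_surjective (A := B) x
      exact ⟨_, ⟨a, rfl⟩, _, ⟨b, rfl⟩, IsFractionRing.to_map_ne_zero_of_mem_nonZeroDivisors hb,
        div_eq_mul_inv _ _⟩
    obtain ⟨_, ⟨⟨a, rfl⟩, ha2⟩, _, ⟨⟨b, rfl⟩, hb2⟩, hb0, h⟩ := Pool.Agent.Q40.RS.frac_csts hp hpk D
      (Pool.Agent.Q40.RS.img k B L) hfr x (Pool.Agent.Q40.RS.mem_csts.2 (hA3 x hx).2)
    exact ⟨⟨a, Pool.Agent.Q40.RS.mem_csts.1 ha2⟩, ⟨b, Pool.Agent.Q40.RS.mem_csts.1 hb2⟩, hb0, h⟩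
  refine ⟨part1, ?_, fun hk => Or.inr ⟨hk, Or.inl ⟨trdeg_RF2 k, hasModel_RF2 k⟩⟩⟩
  intro R _ _ _ _ hE r s f hdet P _ A _ _ _ _
  obtain ⟨c0, hc0⟩ := hdet
  let B := MvPolynomial (Fin s) R
  let L := FractionRing B
  have hex : ∀ i, ∃ D : Derivation k L L, ∀ b : B, D (algebraMap B L b) =
      algebraMap B L (field k (f i) b) := fun i => exists_der_frac (field k (f i))
  choose D hD using hex
  have hsm : Algebra.Smooth R B := ⟨inferInstance, inferInstance⟩
  have hBL : Function.Injective (algebraMap B L) := IsFractionRing.injective B L
  have hf : FaithfulSMul R L := by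
    rw [faithfulSMul_iff_algebraMap_injective, IsScalarTower.algebraMap_eq R B L]
    exact hBL.comp (MvPolynomial.C_injective _ _)
  let _ : Algebra (FractionRing R) L := FractionRing.liftAlgebra R L
  have t1 : IsScalarTower R (FractionRing R) L := FractionRing.isScalarTower_liftAlgebra R L
  have t2 : IsScalarTower k (FractionRing R) L := by
    refine IsScalarTower.of_algebraMap_eq fun x => ?_
    rw [IsScalarTower.algebraMap_apply k R (FractionRing R),
      ← IsScalarTower.algebraMap_apply R (FractionRing R) L,
      IsScalarTower.algebraMap_apply R B L,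
      ← IsScalarTower.algebraMap_apply k R B, ← IsScalarTower.algebraMap_apply k B L]
  have heq : constants B D = constants' k f := by
    ext b
    constructor
    · intro h i
      have h2 := h i
      rw [hD] at h2
      exact hBL (by rw [h2, map_zero])
    · intro h i
      rw [hD, h i, map_zero]
  have h1 := (part1 R B (FractionRing R) L r D ?_ ?_
    (Ideal.span (Set.range (Pool.Agent.Q40.RS.mi f))) ?_ ?_).2 hE
  · rw [heq] at h1
    exact h1 P A
  · intro i
    refine ⟨fun b => ⟨_, hD i b⟩, fun a => ?_⟩
    rw [hD]
    have h2 : field k (f i) (algebraMap R B a) = 0 := Pool.Agent.Q40.RS.fld_C (f i) a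
    rw [h2, map_zero]
  · have h2 := Pool.Agent.Q40.RS.isRLie_of_sat hp hpk _ _
      (Pool.Agent.Q40.RS.sat_of_minor D f hD c0 hc0)
    exact ⟨h2.lie, h2.pow⟩
  · intro h
    apply hc0
    have h2 : Pool.Agent.Q40.RS.mi f c0 ∈ Ideal.span (Set.range (Pool.Agent.Q40.RS.mi f)) :=
      Ideal.subset_span ⟨c0, rfl⟩
    rw [h] at h2
    exact h2
  · rw [← Pool.Agent.Q40.RS.span_dl (k := k), degeneracyIdeal]
    congr 1
    ext b
    constructor
    · rintro ⟨c, hc⟩
      refine ⟨c, hBL ?_⟩
      rw [hc]
      exact Pool.Agent.Q40.RS.dd_eq D f hD c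
    · rintro ⟨c, rfl⟩
      exact ⟨c, Pool.Agent.Q40.RS.dd_eq D f hD c⟩

end Pool.Agent.Results.MP_3029eb_ag.RelativeFoliationsLU
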