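import Pool.Agent.Q2.LV.Lvl
import Pool.Agent.Q2.LV.Loc

/-!
MP_3029eb_ag: local uniformization for the local rings of the quotients `(𝔸^(rm) × S) / G` of the
spaces of matrices over an arbitrary integral base `S` of characteristic `p` by the finite general
linear groups, their parabolic subgroups and their Sylow `p`-subgroups.

The proof: at every valuation ring the invariants belong to a ring of polynomials over the base in
suitable invariant rational functions which belong to the valuation ring (quotients of determinants
of Frobenius-twisted columns); these charts are defined over the finite field and they are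
simultaneously charts over every model of the base.

helper2.
-/

set_option autoImplicit false

open MvPolynomial Pool.Agent.Q2.LV

namespace Pool.Agent.Results.MP_3029eb_ag.VectorInvariantsLU

/-- The valuation ring `V` of the field `K`, which is an algebra over `R`, is uniformized over `R`:
there is a finitely generated `R`-subalgebra `A` of `K` with `A ⊆ V` whose localization at the
centre of the valuation is regular. -/
def IsUniformized (R : Type) {K : Type} [CommRing R] [Field K] [Algebra R K]
    (V : ValuationSubring K) : Prop :=
  ∃ A : Subalgebra R K, A.FG ∧ (∀ a : A, (a : K) ∈ V) ∧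
    ∃ Q : Ideal A, ∃ (_ : Q.IsPrime), (∀ a : A, a ∈ Q ↔ V.valuation (a : K) < 1) ∧
      IsRegularLocalRing (Localization.AtPrime Q)

/-- Local uniformization of the local ring `R`: every valuation ring of the field of fractions `K`
of `R` which is centred on `R` is uniformized over `R`. -/
def AdmitsLU (R : Type) [CommRing R] [IsLocalRing R] : Prop :=
  ∀ (K : Type) [Field K] [Algebra R K] [IsFractionRing R K] (V : ValuationSubring K),
    (∀ r : R, algebraMap R K r ∈ V) →
    (∀ r : R, r ∈ IsLocalRing.maximalIdeal R ↔ V.valuation (algebraMap R K r) < 1) →
    IsUniformized R V

section

variable {F : Type} [Field F] {r : ℕ}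

/-- The matrix `g` belongs to the group `G (lv, d)`: it is invertible, the entry `g i j` is zero
if the level of `i` is less than the level of `j`, and if `i` is the only index of its level, then
the entry `g i i` is a `d i`-th root of unity. -/
structure InGroup (lv d : Fin r → ℕ) (g : Matrix (Fin r) (Fin r) F) : Prop where
  invertible : g.det ≠ 0
  triangular : ∀ i j, lv i < lv j → g i j = 0
  root : ∀ i, (∀ j, lv j = lv i → j = i) → g i i ^ d i = 1

/-- The substitution `X i j ↦ ∑ l, g i l * X l j` of the ring of polynomials in the entries of an
`r × m`-matrix over `O`, that is the multiplication of the matrix by `g` from the left. -/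
noncomputable def substitution (O : Type) [CommRing O] [Algebra F O] (m : ℕ)
    (g : Matrix (Fin r) (Fin r) F) :
    MvPolynomial (Fin r × Fin m) O →ₐ[O] MvPolynomial (Fin r × Fin m) O :=
  aeval fun w => ∑ l, C (algebraMap F O (g w.1 l)) * X (l, w.2)

end

/-- Every valuation ring `V` of the field of fractions `K` of `T` which contains `T`, such that the
restriction of `V` to the field of fractions `E` of `O` is uniformized over `O`, is uniformized
over `T`. -/
def IsRelativelyUniformizable (O T : Type) [CommRing O] [CommRing T] [Algebra O T] : Prop :=
  ∀ (E K : Type) [Field E] [Algebra O E] [IsFractionRing O E] [Field K] [Algebra E K]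
    [Algebra T K] [IsFractionRing T K],
    (∀ b : O, algebraMap T K (algebraMap O T b) = algebraMap E K (algebraMap O E b)) →
    ∀ V : ValuationSubring K, (∀ f : T, algebraMap T K f ∈ V) →
      IsUniformized O (V.comap (algebraMap E K)) → IsUniformized T V

/-- The local ring of `O` at the prime ideal `P ∩ O`. -/
abbrev BaseLocalRing (O : Type) {T : Type} [CommRing O] [CommRing T] [Algebra O T] (P : Ideal T)
    [P.IsPrime] : Type :=
  Localization.AtPrime (P.comap (algebraMap O T))

/-- Let `F` be a finite field and `O` an integral domain which contains `F`, of any dimension. Let
`m > 0`, let `r` and the functions `lv, d : {1, …, r} → ℕ` be arbitrary, and let `G = G (lv, d)` be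
the group of the invertible `r × r`-matrices `g` over `F` with `g i j = 0` for `lv i < lv j` and such
that the entry `g i i` is a `d i`-th root of unity if `i` is the only index of its level. Let `T` be
the ring of invariants of `G` in the ring of polynomials over `O` in the entries of an `r × m`-matrix
(on which `G` acts by left multiplication).

(a) Let `V` be a valuation ring of the field of fractions of `T` which contains `T`, such that
the restriction of `V` to the field of fractions of `O` is uniformized over `O`. Then `V` is
uniformized over `T`.

(b) If `P` is a prime ideal of `T` such that the local ring of `O` at `P ∩ O` admits local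
uniformization, for example if it is regular, then the local ring `R` of `T` at `P` admits local
uniformization.

For constant `lv` and `d = 0` the group `G` is the general linear group `GL_r (F)`, for arbitrary
`lv` and `d = 0` it is (up to conjugacy) an arbitrary parabolic subgroup, and for injective `lv` and
`d = 1` it is a Sylow `p`-subgroup of `GL_r (F)`. Since `T` is again an integral domain over `F`, the
theorem can be applied repeatedly: the products of such groups are included. -/
theorem result (F : Type) [Field F] [Fintype F] (O : Type) [CommRing O] [IsDomain O] [Algebra F O]
    (r m : ℕ) (_ : 0 < m) (lv d : Fin r → ℕ) (T : Subalgebra O (MvPolynomial (Fin r × Fin m) O))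
    (_ : ∀ f, f ∈ T ↔ ∀ g : Matrix (Fin r) (Fin r) F, InGroup lv d g → substitution O m g f = f) :
    IsRelativelyUniformizable O T ∧
    ∀ (P : Ideal T) [P.IsPrime] (R : Type) [CommRing R] [IsLocalRing R] [Algebra T R]
      [IsLocalization.AtPrime R P],
      AdmitsLU (BaseLocalRing O P) ∨ IsRegularLocalRing (BaseLocalRing O P) → AdmitsLU R := by
  rename_i hm hT
  have : NeZero m := ⟨by omega⟩
  have hT : T = inv O m (Pool.Agent.Q2.VI.Lv (F := F) lv d) := by
    ext f
    rw [hT]
    constructor
    · intro h g hg
      exact h g ⟨hg.det, hg.low, hg.one⟩
    · intro h g hg
      exact h g ⟨hg.invertible, hg.triangular, hg.root⟩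
  have hch : HasCharts O T := by
    rw [hT]
    intro E K _ _ _ _ _ _ _ hE V hV
    exact core_lv lv d hE V hV
  have hinj : Function.Injective (algebraMap O T) := fun x y h =>
    MvPolynomial.C_injective _ _ (congrArg Subtype.val h)
  refine ⟨?_, ?_⟩
  · intro E K _ _ _ _ _ _ _ hE V hV hu
    exact hch.uni hE V hV hu
  · rintro P _ R _ _ _ _ (hO | hO)
    · exact hch.adLU hinj P R hO
    · exact hch.adLU hinj P R (adLU_of_regular _)

end Pool.Agent.Results.MP_3029eb_ag.VectorInvariantsLU
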